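import Pool.Agent.Y375.FD.Upper

/-!
# Vertices of a level: Lovász's bound from both sides, and transport along projective maps
-/

set_option autoImplicit false

namespace Pool.Agent.R295.LatLev

open KLev.Levels Finset Pool.Agent.Y375.FD

/-- Lovász's bound for the vertices whose two slopes are separated by `τ`, from both sides. -/
lemma VT_le {Γ : Finset (ℝ × ℝ)} {k : ℕ} {τ : ℝ} (hτ : ∀ j ∈ Γ, j.1 ≠ τ) :
    (VT Γ k τ).ncard ≤ 2 * min k (Γ.card - 1 - k) + 1 := by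
  classical
  have h1 := VT_card (k := k) hτ
  have hτ' : ∀ j ∈ Γ.image refl, j.1 ≠ -τ := by
    intro j hj
    rw [Finset.mem_image] at hj
    obtain ⟨i, hi, rfl⟩ := hj
    intro h
    exact hτ i hi (neg_injective h)
  have h2 := VT_card (k := Γ.card - 1 - k) hτ'
  have h3 : (VT Γ k τ).ncard ≤ (VT (Γ.image refl) (Γ.card - 1 - k) (-τ)).ncard := by
    apply Set.ncard_le_ncard_of_injOn (fun p => (p.1, -p.2)) _ _ h2.1
    · rintro p ⟨l, m, h, h'⟩
      refine ⟨refl l, refl m, V_refl h, ?_⟩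
      have e1 : (refl l).1 = -l.1 := rfl
      have e2 : (refl m).1 = -m.1 := rfl
      rw [e1, e2]
      rcases h' with h' | h'
      · exact Or.inr ⟨by linarith [h'.2], by linarith [h'.1]⟩
      · exact Or.inl ⟨by linarith [h'.2], by linarith [h'.1]⟩
    · rintro p - q - h
      rw [Prod.mk.injEq] at h
      exact Prod.ext h.1 (neg_injective h.2)
  rcases Nat.le_total k (Γ.card - 1 - k) with h | h
  · rw [min_eq_left h]; exact h1.2
  · rw [min_eq_right h]; exact h3.trans h2.2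

lemma sgn {a b x y W : ℝ} (hW : 0 < W) (h : a - b = (x - y) / W) :
    (a < b ↔ x < y) ∧ (a = b ↔ x = y) := by
  have h2 : (a - b) * W = x - y := by rw [h]; field_simp
  refine ⟨⟨fun h3 => ?_, fun h3 => ?_⟩, ⟨fun h3 => ?_, fun h3 => ?_⟩⟩
  · have : (a - b) * W < 0 := mul_neg_of_neg_of_pos (by linarith) hW
    linarith
  · by_contra h4
    have : 0 ≤ (a - b) * W := mul_nonneg (by linarith [not_lt.mp h4]) hW.le
    linarith
  · rw [h3, sub_self, zero_mul] at h2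
    linarith
  · rw [h3, sub_self] at h2
    rcases mul_eq_zero.mp h2 with h4 | h4
    · linarith
    · exact absurd h4 hW.ne'

open scoped Classical in
lemma filt_im {Γ : Finset (ℝ × ℝ)} {p p' : ℝ × ℝ} {c : ℝ × ℝ → ℝ × ℝ} {W : ℝ} (hW : 0 < W)
    (hh : ∀ j ∈ Γ, height (c j) p'.1 - p'.2 = (height j p.1 - p.2) / W)
    {P Q : ℝ × ℝ → Prop} (hPQ : ∀ j ∈ Γ, height j p.1 = p.2 → (Q (c j) ↔ P j)) :
    (Γ.image c).filter (fun j => height j p'.1 < p'.2 ∨ (height j p'.1 = p'.2 ∧ Q j)) =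
      (Γ.filter (fun j => height j p.1 < p.2 ∨ (height j p.1 = p.2 ∧ P j))).image c := by
  ext j'
  simp only [Finset.mem_filter, Finset.mem_image]
  constructor
  · rintro ⟨⟨j, hj, rfl⟩, h1⟩
    have h2 := sgn hW (hh j hj)
    refine ⟨j, ⟨hj, ?_⟩, rfl⟩
    rcases h1 with h1 | ⟨h1, h3⟩
    · exact Or.inl (h2.1.mp h1)
    · exact Or.inr ⟨h2.2.mp h1, (hPQ j hj (h2.2.mp h1)).mp h3⟩
  · rintro ⟨j, ⟨hj, h1⟩, rfl⟩
    have h2 := sgn hW (hh j hj)
    refine ⟨⟨j, hj, rfl⟩, ?_⟩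
    rcases h1 with h1 | ⟨h1, h3⟩
    · exact Or.inl (h2.1.mpr h1)
    · exact Or.inr ⟨h2.2.mpr h1, (hPQ j hj h1).mpr h3⟩

/-- Transport of the vertices of a level. -/
lemma V_map {Γ : Finset (ℝ × ℝ)} {k : ℕ} {p p' l m : ℝ × ℝ} {c : ℝ × ℝ → ℝ × ℝ} {W E : ℝ}
    (hc : Function.Injective c) (hW : 0 < W)
    (hh : ∀ j ∈ Γ, height (c j) p'.1 - p'.2 = (height j p.1 - p.2) / W)
    (hs : ∀ i ∈ Γ, ∀ j ∈ Γ, height i p.1 = p.2 → height j p.1 = p.2 →
      (c j).1 - (c i).1 = E * (j.1 - i.1))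
    (h : V Γ k p l m) :
    (0 < E → V (Γ.image c) k p' (c l) (c m)) ∧ (E < 0 → V (Γ.image c) k p' (c m) (c l)) := by
  classical
  obtain ⟨hl, hm, hlm, hlp, hmp, hL, hR⟩ := h
  have hcl := (sgn hW (hh l hl)).2.mpr hlp
  have hcm := (sgn hW (hh m hm)).2.mpr hmp
  have key : ∀ i ∈ Γ, ∀ j ∈ Γ, height i p.1 = p.2 → height j p.1 = p.2 →
      (0 < E → ((c i).1 < (c j).1 ↔ i.1 < j.1)) ∧ (E < 0 → ((c i).1 < (c j).1 ↔ j.1 < i.1)) := by
    intro i hi j hj hip hjp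
    have h1 := hs i hi j hj hip hjp
    constructor
    · intro hE
      constructor
      · intro h2
        by_contra h3
        have : E * (j.1 - i.1) ≤ 0 :=
          mul_nonpos_of_nonneg_of_nonpos hE.le (by linarith [not_lt.mp h3])
        linarith
      · intro h2
        have : 0 < E * (j.1 - i.1) := mul_pos hE (by linarith)
        linarith
    · intro hE
      constructor
      · intro h2
        by_contra h3
        have : E * (j.1 - i.1) ≤ 0 :=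
          mul_nonpos_of_nonpos_of_nonneg hE.le (by linarith [not_lt.mp h3])
        linarith
      · intro h2
        have : 0 < E * (j.1 - i.1) := mul_pos_of_neg_of_neg hE (by linarith)
        linarith
  constructor
  · intro hE
    refine ⟨Finset.mem_image_of_mem _ hl, Finset.mem_image_of_mem _ hm, fun h => hlm (hc h),
      hcl, hcm, ?_, ?_⟩
    · have e : LS (Γ.image c) p' (c l).1 = (LS Γ p l.1).image c := by
        unfold LS
        exact filt_im hW hh (P := fun j => l.1 < j.1) (Q := fun j => (c l).1 < j.1)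
          (fun j hj hjp => (key l hl j hj hlp hjp).1 hE)
      rw [e, Finset.card_image_of_injective _ hc, hL]
    · have e : RS (Γ.image c) p' (c m).1 = (RS Γ p m.1).image c := by
        unfold RS
        exact filt_im hW hh (P := fun j => j.1 < m.1) (Q := fun j => j.1 < (c m).1)
          (fun j hj hjp => (key j hj m hm hjp hmp).1 hE)
      rw [e, Finset.card_image_of_injective _ hc, hR]
  · intro hE
    refine ⟨Finset.mem_image_of_mem _ hm, Finset.mem_image_of_mem _ hl, fun h => hlm (hc h).symm,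
      hcm, hcl, ?_, ?_⟩
    · have e : LS (Γ.image c) p' (c m).1 = (RS Γ p m.1).image c := by
        unfold LS RS
        exact filt_im hW hh (P := fun j => j.1 < m.1) (Q := fun j => (c m).1 < j.1)
          (fun j hj hjp => (key m hm j hj hmp hjp).2 hE)
      rw [e, Finset.card_image_of_injective _ hc, hR]
    · have e : RS (Γ.image c) p' (c l).1 = (LS Γ p l.1).image c := by
        unfold LS RS
        exact filt_im hW hh (P := fun j => l.1 < j.1) (Q := fun j => j.1 < (c l).1)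
          (fun j hj hjp => (key j hj l hl hjp hlp).2 hE)
      rw [e, Finset.card_image_of_injective _ hc, hL]

lemma VV_fin (Γ : Finset (ℝ × ℝ)) (k : ℕ) : (VV Γ k).Finite := (VV_card Γ k).1

/-- Transport of a set of vertices. -/
lemma VV_map {Γ : Finset (ℝ × ℝ)} {k : ℕ} {S T : Set ℝ} {c : ℝ × ℝ → ℝ × ℝ} {W E : ℝ → ℝ}
    {f : ℝ × ℝ → ℝ × ℝ} (hc : Function.Injective c) (hW : ∀ x ∈ S, 0 < W x)
    (hE : ∀ x ∈ S, E x ≠ 0)
    (hh : ∀ p : ℝ × ℝ, p.1 ∈ S → ∀ j ∈ Γ,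
      height (c j) (f p).1 - (f p).2 = (height j p.1 - p.2) / W p.1)
    (hs : ∀ p : ℝ × ℝ, p.1 ∈ S → ∀ i ∈ Γ, ∀ j ∈ Γ, height i p.1 = p.2 → height j p.1 = p.2 →
      (c j).1 - (c i).1 = E p.1 * (j.1 - i.1))
    (hf : ∀ p : ℝ × ℝ, p.1 ∈ S → (f p).1 ∈ T)
    (hinj : ∀ p q : ℝ × ℝ, p.1 ∈ S → q.1 ∈ S → (f p).1 = (f q).1 → p.1 = q.1) :
    {p | p ∈ VV Γ k ∧ p.1 ∈ S}.ncard ≤
      {p | p ∈ VV (Γ.image c) k ∧ p.1 ∈ T}.ncard := by
  classical
  apply Set.ncard_le_ncard_of_injOn f _ _ ((VV_fin (Γ.image c) k).subset (fun p hp => hp.1))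
  · rintro p ⟨⟨l, m, h⟩, hp⟩
    have h1 := V_map hc (hW _ hp) (hh p hp) (hs p hp) h
    rcases lt_or_gt_of_ne (hE _ hp) with h2 | h2
    · exact ⟨⟨_, _, h1.2 h2⟩, hf p hp⟩
    · exact ⟨⟨_, _, h1.1 h2⟩, hf p hp⟩
  · rintro p ⟨⟨l, m, h⟩, hp⟩ q ⟨⟨l', m', h'⟩, hq⟩ he
    exact V_inj h h' (hinj p q hp hq (by rw [he]))

/-- At most one vertex above a given abscissa. -/
lemma VV_one {Γ : Finset (ℝ × ℝ)} {k : ℕ} {S : Set ℝ} (hS : S.Subsingleton) :
    {p | p ∈ VV Γ k ∧ p.1 ∈ S}.ncard ≤ 1 := by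
  rw [Set.ncard_le_one ((VV_fin Γ k).subset (fun p hp => hp.1))]
  rintro p ⟨⟨l, m, h⟩, hp⟩ q ⟨⟨l', m', h'⟩, hq⟩
  exact V_inj h h' (hS hp hq)

lemma VV_split {Γ : Finset (ℝ × ℝ)} {k : ℕ} {S T R : Set ℝ} (h : S ⊆ T ∪ R) :
    {p | p ∈ VV Γ k ∧ p.1 ∈ S}.ncard ≤
      {p | p ∈ VV Γ k ∧ p.1 ∈ T}.ncard + {p | p ∈ VV Γ k ∧ p.1 ∈ R}.ncard := by
  refine (Set.ncard_le_ncard ?_ (((VV_fin Γ k).subset (fun p hp => hp.1)).union
    ((VV_fin Γ k).subset (fun p hp => hp.1)))).trans (Set.ncard_union_le _ _)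
  rintro p ⟨h1, h2⟩
  rcases h h2 with h3 | h3
  · exact Or.inl ⟨h1, h3⟩
  · exact Or.inr ⟨h1, h3⟩

end Pool.Agent.R295.LatLev
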