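import Pool.Agent.R295.LatLev.Basic

/-!
# Levels of arrangements of lines with slopes and intercepts in an integer box
-/

set_option autoImplicit false

namespace Pool.Agent.R295.LatLev

open KLev.Levels Finset Pool.Agent.Y375.FD

/-- All lines of `Γ` have integer slope in `[a0, a0 + A]` and integer intercept in
`[b0, b0 + B]`. -/
def Box (a0 b0 : ℤ) (A B : ℕ) (Γ : Finset (ℝ × ℝ)) : Prop :=
  ∀ j ∈ Γ, ∃ a b : ℤ, j.1 = a ∧ j.2 = b ∧ a0 ≤ a ∧ a ≤ a0 + A ∧ b0 ≤ b ∧ b ≤ b0 + B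

/-- Lovász's number. -/
def LM (Γ : Finset (ℝ × ℝ)) (k : ℕ) : ℕ := 2 * min k (Γ.card - 1 - k) + 1

/-- vertices with slopes that differ by at least `L` -/
lemma far {Γ : Finset (ℝ × ℝ)} {k : ℕ} {a0 b0 : ℤ} {A B : ℕ} (hΓ : Box a0 b0 A B Γ) {L : ℕ}
    (hL : 1 ≤ L) :
    {p | ∃ l m, V Γ k p l m ∧ (L : ℝ) ≤ |l.1 - m.1|}.ncard ≤ (A / L) * LM Γ k := by
  classical
  set τ : ℕ → ℝ := fun j => (a0 : ℝ) + (j : ℝ) * L - 1 / 2 with hτd
  have hτ : ∀ j, ∀ i ∈ Γ, i.1 ≠ τ j := by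
    intro j i hi h
    obtain ⟨a, b, h1, -⟩ := hΓ i hi
    rw [h1] at h
    simp only [hτd] at h
    have h2 : ((2 * (a - a0 - j * L) : ℤ) : ℝ) = ((-1 : ℤ) : ℝ) := by
      push_cast
      linarith
    have h3 : 2 * (a - a0 - j * L) = -1 := by exact_mod_cast h2
    omega
  have hsub : {p | ∃ l m, V Γ k p l m ∧ (L : ℝ) ≤ |l.1 - m.1|} ⊆
      ⋃ j ∈ Finset.Icc 1 (A / L), VT Γ k (τ j) := by
    have aux : ∀ i ∈ Γ, ∀ j ∈ Γ, (L : ℝ) ≤ j.1 - i.1 →
        ∃ t ∈ Finset.Icc 1 (A / L), i.1 < τ t ∧ τ t < j.1 := by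
      intro i hi j hj hij
      obtain ⟨a, b, h1, -, h3, h4, -⟩ := hΓ i hi
      obtain ⟨a', b', h1', -, h3', h4', -⟩ := hΓ j hj
      rw [h1, h1'] at hij
      have h5 : (L : ℤ) ≤ a' - a := by
        have : ((L : ℤ) : ℝ) ≤ ((a' - a : ℤ) : ℝ) := by push_cast; exact hij
        exact_mod_cast this
      obtain ⟨d, hd⟩ := Int.eq_ofNat_of_zero_le (show 0 ≤ a - a0 by linarith)
      have hL' : 0 < L := hL
      have e1 : L * (d / L) ≤ d := Nat.mul_div_le d L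
      have e2 : d < L * (d / L + 1) := Nat.lt_mul_div_succ d hL'
      refine ⟨d / L + 1, ?_, ?_, ?_⟩
      · rw [Finset.mem_Icc]
        refine ⟨Nat.le_add_left 1 _, ?_⟩
        rw [Nat.le_div_iff_mul_le hL']
        have e3 : (d / L + 1) * L = L * (d / L) + L := by ring
        rw [e3]
        have : (d : ℤ) + L ≤ A := by omega
        omega
      · rw [h1]
        simp only [hτd]
        have e4 : (d : ℤ) + 1 ≤ (d / L + 1 : ℕ) * L := by
          have : d + 1 ≤ (d / L + 1) * L := by rw [mul_comm]; omega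
          exact_mod_cast this
        have e5 : a + 1 ≤ a0 + (d / L + 1 : ℕ) * L := by omega
        have e7 : ((a + 1 : ℤ) : ℝ) ≤ ((a0 + ((d / L + 1 : ℕ) : ℤ) * L : ℤ) : ℝ) :=
          Int.cast_le.mpr e5
        have e6 : (a : ℝ) + 1 ≤ (a0 : ℝ) + ((d / L + 1 : ℕ) : ℝ) * L := by
          rw [Int.cast_add, Int.cast_add, Int.cast_mul, Int.cast_natCast, Int.cast_natCast,
            Int.cast_one] at e7
          exact e7
        linarith
      · rw [h1']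
        simp only [hτd]
        have e4 : ((d / L + 1 : ℕ) : ℤ) * L ≤ d + L := by
          have : (d / L + 1) * L ≤ d + L := by
            have e3 : (d / L + 1) * L = L * (d / L) + L := by ring
            omega
          exact_mod_cast this
        have e5 : a0 + ((d / L + 1 : ℕ) : ℤ) * L ≤ a' := by omega
        have e7 : ((a0 + ((d / L + 1 : ℕ) : ℤ) * L : ℤ) : ℝ) ≤ ((a' : ℤ) : ℝ) :=
          Int.cast_le.mpr e5
        have e6 : (a0 : ℝ) + ((d / L + 1 : ℕ) : ℝ) * L ≤ (a' : ℝ) := by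
          rw [Int.cast_add, Int.cast_mul, Int.cast_natCast, Int.cast_natCast] at e7
          exact e7
        linarith
    rintro p ⟨l, m, h, hlm⟩
    rw [Set.mem_iUnion₂]
    rcases le_total l.1 m.1 with h1 | h1
    · rw [abs_of_nonpos (by linarith)] at hlm
      obtain ⟨t, ht, h2⟩ := aux l h.1 m h.2.1 (by linarith)
      exact ⟨t, ht, l, m, h, Or.inr h2⟩
    · rw [abs_of_nonneg (by linarith)] at hlm
      obtain ⟨t, ht, h2⟩ := aux m h.2.1 l h.1 (by linarith)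
      exact ⟨t, ht, l, m, h, Or.inl h2⟩
  have hfin : (⋃ j ∈ Finset.Icc 1 (A / L), VT Γ k (τ j)).Finite := by
    apply Set.Finite.biUnion (Finset.finite_toSet _)
    intro j _
    exact (VT_card (hτ j)).1
  calc _ ≤ (⋃ j ∈ Finset.Icc 1 (A / L), VT Γ k (τ j)).ncard := Set.ncard_le_ncard hsub hfin
    _ ≤ ∑ j ∈ Finset.Icc 1 (A / L), (VT Γ k (τ j)).ncard := Finset.set_ncard_biUnion_le _ _
    _ ≤ ∑ j ∈ Finset.Icc 1 (A / L), LM Γ k := Finset.sum_le_sum (fun j _ => VT_le (hτ j))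
    _ = (A / L) * LM Γ k := by simp

/-- vertices with slopes that differ by less than `L`, above `(0, X]` -/
lemma near {Γ : Finset (ℝ × ℝ)} {k : ℕ} {a0 b0 : ℤ} {A B : ℕ} (hΓ : Box a0 b0 A B Γ) {L : ℕ}
    {X : ℝ} (hX : 0 ≤ X) :
    {p | ∃ l m, V Γ k p l m ∧ |l.1 - m.1| < L ∧ 0 < p.1 ∧ p.1 ≤ X}.ncard ≤
      ∑ q ∈ Finset.Ico 1 L, ⌊X * q⌋₊ := by
  classical
  set F : Finset ℝ := (Finset.Ico 1 L).biUnion
    (fun q => (Finset.Icc 1 ⌊X * q⌋₊).image (fun r : ℕ => (r : ℝ) / q)) with hF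
  have hFc : F.card ≤ ∑ q ∈ Finset.Ico 1 L, ⌊X * q⌋₊ := by
    refine Finset.card_biUnion_le.trans (Finset.sum_le_sum (fun q _ => ?_))
    refine Finset.card_image_le.trans ?_
    simp
  refine le_trans ?_ hFc
  have := Set.ncard_le_ncard_of_injOn (s := {p : ℝ × ℝ | ∃ l m, V Γ k p l m ∧ |l.1 - m.1| < L ∧
    0 < p.1 ∧ p.1 ≤ X}) (t := (F : Set ℝ)) (fun p => p.1) ?_ ?_ (Finset.finite_toSet F)
  · rwa [Set.ncard_coe_finset] at this
  · rintro p ⟨l, m, h, hlm, h0, h1⟩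
    obtain ⟨hl, hm, hne, hlp, hmp, -, -⟩ := h
    have hs := slope_ne hne hlp hmp
    obtain ⟨a, b, ha, hb, -⟩ := hΓ l hl
    obtain ⟨a', b', ha', hb', -⟩ := hΓ m hm
    unfold height at hlp hmp
    rw [ha, hb] at hlp
    rw [ha', hb'] at hmp
    rw [ha, ha'] at hs hlm
    have hs' : a ≠ a' := fun h => hs (by rw [h])
    have heq : ((a - a' : ℤ) : ℝ) * p.1 = ((b' - b : ℤ) : ℝ) := by push_cast; linarith
    -- absolute values
    have hq0 : 0 < (a - a').natAbs := Int.natAbs_pos.mpr (sub_ne_zero.mpr hs')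
    have hqR : (((a - a').natAbs : ℕ) : ℝ) = |((a - a' : ℤ) : ℝ)| := by
      rw [Nat.cast_natAbs, Int.cast_abs]
    have hrR : (((b' - b).natAbs : ℕ) : ℝ) = |((b' - b : ℤ) : ℝ)| := by
      rw [Nat.cast_natAbs, Int.cast_abs]
    have hpr : (((a - a').natAbs : ℕ) : ℝ) * p.1 = (((b' - b).natAbs : ℕ) : ℝ) := by
      rw [hqR, hrR, ← heq, abs_mul, abs_of_pos h0]
    have hqpos : (0 : ℝ) < (((a - a').natAbs : ℕ) : ℝ) := by exact_mod_cast hq0
    have hqL : (a - a').natAbs < L := by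
      have : (((a - a').natAbs : ℕ) : ℝ) < L := by
        rw [hqR]; push_cast; exact hlm
      exact_mod_cast this
    show p.1 ∈ (F : Set ℝ)
    rw [Finset.mem_coe, hF, Finset.mem_biUnion]
    refine ⟨(a - a').natAbs, Finset.mem_Ico.mpr ⟨hq0, hqL⟩, ?_⟩
    rw [Finset.mem_image]
    refine ⟨(b' - b).natAbs, ?_, ?_⟩
    · rw [Finset.mem_Icc]
      constructor
      · have : (0 : ℝ) < (((b' - b).natAbs : ℕ) : ℝ) := by
          rw [← hpr]; exact mul_pos hqpos h0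
        exact_mod_cast this
      · apply Nat.le_floor
        rw [← hpr, mul_comm]
        exact mul_le_mul_of_nonneg_right h1 hqpos.le
    · rw [← hpr]
      field_simp
  · rintro p ⟨l, m, h, -⟩ q ⟨l', m', h', -⟩ he
    exact V_inj h h' he

lemma near_sum {X : ℝ} (hX : 0 ≤ X) (L : ℕ) (hL : 1 ≤ L) :
    ((∑ q ∈ Finset.Ico 1 L, ⌊X * q⌋₊ : ℕ) : ℝ) ≤ X * (L * (L - 1) / 2) := by
  push_cast
  calc ∑ q ∈ Finset.Ico 1 L, ((⌊X * q⌋₊ : ℕ) : ℝ) ≤ ∑ q ∈ Finset.Ico 1 L, X * q :=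
        Finset.sum_le_sum (fun q _ => Nat.floor_le (by positivity))
    _ = X * ∑ q ∈ Finset.Ico 1 L, (q : ℝ) := by rw [Finset.mul_sum]
    _ = X * (L * (L - 1) / 2) := by
        congr 1
        induction L, hL using Nat.le_induction with
        | base => simp
        | succ n hn ih =>
          rw [Finset.sum_Ico_succ_top (by omega), ih]
          push_cast
          ring

lemma LM_pos (Γ : Finset (ℝ × ℝ)) (k : ℕ) : 1 ≤ LM Γ k := by unfold LM; omega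

/-- One region. -/
lemma region {Γ : Finset (ℝ × ℝ)} {k : ℕ} {a0 b0 : ℤ} {A B : ℕ} (hA : 1 ≤ A) (hB : 1 ≤ B)
    (hΓ : Box a0 b0 A B Γ) {R : ℝ} (hR : 0 < R)
    (hR3 : R ^ 3 = (A : ℝ) * B * (LM Γ k : ℝ) ^ 2) :
    ({p | p ∈ VV Γ k ∧ p.1 ∈ Set.Ioc (0 : ℝ) ((B : ℝ) / A)}.ncard : ℝ) ≤ 2 * R := by
  classical
  have hA' : (0 : ℝ) < A := by exact_mod_cast hA
  have hB' : (0 : ℝ) < B := by exact_mod_cast hB
  have hM' : (0 : ℝ) < LM Γ k := by exact_mod_cast LM_pos Γ k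
  set M : ℝ := (LM Γ k : ℝ) with hM
  set lam : ℝ := A * M / R with hlam
  have hlam0 : 0 < lam := by positivity
  set L : ℕ := ⌈lam⌉₊ with hLd
  have hL1 : 1 ≤ L := Nat.ceil_pos.mpr hlam0
  have hLl : lam ≤ L := Nat.le_ceil _
  have hLu : (L : ℝ) < lam + 1 := Nat.ceil_lt_add_one hlam0.le
  set X : ℝ := (B : ℝ) / A with hX
  have hX0 : 0 ≤ X := by positivity
  have h1 : {p | p ∈ VV Γ k ∧ p.1 ∈ Set.Ioc (0 : ℝ) X}.ncard ≤
      (A / L) * LM Γ k + ∑ q ∈ Finset.Ico 1 L, ⌊X * q⌋₊ := by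
    have hsub : {p | p ∈ VV Γ k ∧ p.1 ∈ Set.Ioc (0 : ℝ) X} ⊆
        {p | ∃ l m, V Γ k p l m ∧ (L : ℝ) ≤ |l.1 - m.1|} ∪
        {p | ∃ l m, V Γ k p l m ∧ |l.1 - m.1| < L ∧ 0 < p.1 ∧ p.1 ≤ X} := by
      rintro p ⟨⟨l, m, h⟩, hp⟩
      rcases le_or_gt (L : ℝ) |l.1 - m.1| with h2 | h2
      · exact Or.inl ⟨l, m, h, h2⟩
      · exact Or.inr ⟨l, m, h, h2, hp.1, hp.2⟩
    have hfin : ({p | ∃ l m, V Γ k p l m ∧ (L : ℝ) ≤ |l.1 - m.1|} ∪
        {p | ∃ l m, V Γ k p l m ∧ |l.1 - m.1| < L ∧ 0 < p.1 ∧ p.1 ≤ X}).Finite := by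
      apply (VV_fin Γ k).subset
      rintro p (⟨l, m, h, -⟩ | ⟨l, m, h, -⟩)
      · exact ⟨l, m, h⟩
      · exact ⟨l, m, h⟩
    refine (Set.ncard_le_ncard hsub hfin).trans ((Set.ncard_union_le _ _).trans ?_)
    exact Nat.add_le_add (far hΓ hL1) (near hΓ hX0)
  have h2 : ({p | p ∈ VV Γ k ∧ p.1 ∈ Set.Ioc (0 : ℝ) X}.ncard : ℝ) ≤
      ((A / L : ℕ) : ℝ) * M + X * (L * (L - 1) / 2) := by
    have h3 := near_sum hX0 L hL1
    have h4 : ({p | p ∈ VV Γ k ∧ p.1 ∈ Set.Ioc (0 : ℝ) X}.ncard : ℝ) ≤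
      (((A / L) * LM Γ k + ∑ q ∈ Finset.Ico 1 L, ⌊X * q⌋₊ : ℕ) : ℝ) := by exact_mod_cast h1
    rw [Nat.cast_add, Nat.cast_mul] at h4
    linarith
  have h3 : ((A / L : ℕ) : ℝ) * M ≤ R := by
    have h4 : ((A / L : ℕ) : ℝ) ≤ A / L := Nat.cast_div_le
    have hL' : (0 : ℝ) < L := by exact_mod_cast hL1
    have h5 : (A : ℝ) / L ≤ A / lam := by
      apply div_le_div_of_nonneg_left hA'.le hlam0 hLl
    calc ((A / L : ℕ) : ℝ) * M ≤ A / lam * M :=
          mul_le_mul_of_nonneg_right (h4.trans h5) hM'.le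
      _ = R := by rw [hlam]; field_simp
  have h4 : X * (L * (L - 1) / 2) ≤ R := by
    have h5 : (L : ℝ) * (L - 1) / 2 ≤ lam ^ 2 := by
      rcases le_or_gt lam 1 with h6 | h6
      · have h7 : L ≤ 1 := by
          rw [hLd]; exact Nat.ceil_le.mpr (by exact_mod_cast h6)
        have h8 : L = 1 := le_antisymm h7 hL1
        rw [h8]
        norm_num
        positivity
      · have h9 : (0 : ℝ) ≤ L - 1 := by
          have : (1 : ℝ) ≤ L := by exact_mod_cast hL1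
          linarith
        nlinarith
    calc X * (L * (L - 1) / 2) ≤ X * lam ^ 2 := mul_le_mul_of_nonneg_left h5 hX0
      _ = ((A : ℝ) * B * M ^ 2) / R ^ 2 := by rw [hX, hlam]; field_simp
      _ = R := by rw [← hR3]; field_simp
  linarith

/-- exchange of slope and intercept -/
def sw (l : ℝ × ℝ) : ℝ × ℝ := (l.2, l.1)

/-- reflection in the vertical axis -/
def rx (l : ℝ × ℝ) : ℝ × ℝ := (-l.1, l.2)

lemma sw_inj : Function.Injective sw := by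
  intro l m h
  unfold sw at h
  rw [Prod.mk.injEq] at h
  exact Prod.ext h.2 h.1

lemma rx_inj : Function.Injective rx := by
  intro l m h
  unfold rx at h
  rw [Prod.mk.injEq] at h
  exact Prod.ext (neg_injective h.1) h.2

lemma LM_image {Γ : Finset (ℝ × ℝ)} {k : ℕ} {c : ℝ × ℝ → ℝ × ℝ} (hc : Function.Injective c) :
    LM (Γ.image c) k = LM Γ k := by
  unfold LM
  rw [Finset.card_image_of_injective _ hc]

/-- The right half. -/
lemma right {Γ : Finset (ℝ × ℝ)} {k : ℕ} {a0 b0 : ℤ} {A B : ℕ} (hA : 1 ≤ A) (hB : 1 ≤ B)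
    (hΓ : Box a0 b0 A B Γ) {R : ℝ} (hR : 0 < R)
    (hR3 : R ^ 3 = (A : ℝ) * B * (LM Γ k : ℝ) ^ 2) :
    ({p | p ∈ VV Γ k ∧ p.1 ∈ Set.Ioi (0 : ℝ)}.ncard : ℝ) ≤ 4 * R := by
  classical
  have hA' : (0 : ℝ) < A := by exact_mod_cast hA
  have hB' : (0 : ℝ) < B := by exact_mod_cast hB
  have h1 := region hA hB hΓ hR hR3
  have hbox : Box b0 a0 B A (Γ.image sw) := by
    intro j hj
    rw [Finset.mem_image] at hj
    obtain ⟨i, hi, rfl⟩ := hj
    obtain ⟨a, b, h1, h2, h3, h4, h5, h6⟩ := hΓ i hi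
    exact ⟨b, a, h2, h1, h5, h6, h3, h4⟩
  have h2 := region (k := k) hB hA hbox hR (by rw [LM_image sw_inj, hR3]; ring)
  have h3 : {p | p ∈ VV Γ k ∧ p.1 ∈ Set.Ioi ((B : ℝ) / A)}.ncard ≤
      {p | p ∈ VV (Γ.image sw) k ∧ p.1 ∈ Set.Ioc (0 : ℝ) ((A : ℝ) / B)}.ncard := by
    have hpos : ∀ x ∈ Set.Ioi ((B : ℝ) / A), 0 < x := fun x hx => lt_trans (by positivity) hx
    refine VV_map (c := sw) (W := fun x => x) (E := fun x => -x)
      (f := fun p => (1 / p.1, p.2 / p.1)) sw_inj hpos ?_ ?_ ?_ ?_ ?_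
    · intro x hx
      have := hpos x hx
      exact neg_ne_zero.mpr this.ne'
    · intro p hp j _
      have := hpos _ hp
      simp only [height, sw]
      field_simp
      ring
    · intro p hp i _ j _ hi hj
      simp only [sw]
      unfold height at hi hj
      linarith
    · intro p hp
      have h4 := hpos _ hp
      have h5 : (B : ℝ) / A < p.1 := hp
      refine ⟨by positivity, ?_⟩
      show 1 / p.1 ≤ (A : ℝ) / B
      rw [div_lt_iff₀ hA'] at h5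
      rw [div_le_div_iff₀ h4 hB']
      linarith
    · intro p q hp hq h
      have h4 := hpos _ hp
      have h5 := hpos _ hq
      simp only [one_div] at h
      exact inv_injective h
  have h4 := VV_split (Γ := Γ) (k := k) (S := Set.Ioi (0 : ℝ)) (T := Set.Ioc (0 : ℝ) ((B : ℝ) / A))
    (R := Set.Ioi ((B : ℝ) / A)) (fun x hx => by
      rcases le_or_gt x ((B : ℝ) / A) with h5 | h5
      · exact Or.inl ⟨hx, h5⟩
      · exact Or.inr h5)
  have h5 : ({p | p ∈ VV Γ k ∧ p.1 ∈ Set.Ioi (0 : ℝ)}.ncard : ℝ) ≤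
      ({p | p ∈ VV Γ k ∧ p.1 ∈ Set.Ioc (0 : ℝ) ((B : ℝ) / A)}.ncard : ℝ) +
      ({p | p ∈ VV (Γ.image sw) k ∧ p.1 ∈ Set.Ioc (0 : ℝ) ((A : ℝ) / B)}.ncard : ℝ) := by
    exact_mod_cast h4.trans (Nat.add_le_add_left h3 _)
  linarith

/-- **The integer box.** -/
theorem intBox {Γ : Finset (ℝ × ℝ)} {k : ℕ} {a0 b0 : ℤ} {A B : ℕ} (hA : 1 ≤ A) (hB : 1 ≤ B)
    (hΓ : Box a0 b0 A B Γ) {R : ℝ} (hR : 0 < R)
    (hR3 : R ^ 3 = (A : ℝ) * B * (LM Γ k : ℝ) ^ 2) :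
    ((VV Γ k).ncard : ℝ) ≤ 8 * R + 1 := by
  classical
  have h1 := right hA hB hΓ hR hR3
  have hbox : Box (-a0 - A) b0 A B (Γ.image rx) := by
    intro j hj
    rw [Finset.mem_image] at hj
    obtain ⟨i, hi, rfl⟩ := hj
    obtain ⟨a, b, h1, h2, h3, h4, h5, h6⟩ := hΓ i hi
    refine ⟨-a, b, ?_, h2, by linarith, by linarith, h5, h6⟩
    show -i.1 = _
    rw [h1]
    push_cast
    rfl
  have h2 := right (k := k) hA hB hbox hR (by rw [LM_image rx_inj, hR3])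
  have h3 : {p | p ∈ VV Γ k ∧ p.1 ∈ Set.Iio (0 : ℝ)}.ncard ≤
      {p | p ∈ VV (Γ.image rx) k ∧ p.1 ∈ Set.Ioi (0 : ℝ)}.ncard := by
    refine VV_map (c := rx) (W := fun _ => 1) (E := fun _ => -1)
      (f := fun p => (-p.1, p.2)) rx_inj (fun _ _ => one_pos) (fun _ _ => by norm_num) ?_ ?_ ?_ ?_
    · intro p hp j _
      simp only [height, rx]
      ring
    · intro p hp i _ j _ hi hj
      simp only [rx]
      ring
    · intro p hp
      have h5 : p.1 < 0 := hp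
      show 0 < -p.1
      linarith
    · intro p q hp hq h
      exact neg_injective h
  have h4 := VV_split (Γ := Γ) (k := k) (S := Set.univ) (T := Set.Ioi (0 : ℝ))
    (R := Set.Iio (0 : ℝ) ∪ {0}) (fun x _ => by
      rcases lt_trichotomy x 0 with h5 | h5 | h5
      · exact Or.inr (Or.inl h5)
      · exact Or.inr (Or.inr h5)
      · exact Or.inl h5)
  have h5 := VV_split (Γ := Γ) (k := k) (S := Set.Iio (0 : ℝ) ∪ {0}) (T := Set.Iio (0 : ℝ))
    (R := {0}) (subset_refl _)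
  have h6 := VV_one (Γ := Γ) (k := k) (S := ({0} : Set ℝ)) Set.subsingleton_singleton
  have h7 : {p | p ∈ VV Γ k ∧ p.1 ∈ (Set.univ : Set ℝ)} = VV Γ k := by
    ext p
    constructor
    · intro h; exact h.1
    · intro h; exact ⟨h, Set.mem_univ _⟩
  rw [h7] at h4
  have h8 : ((VV Γ k).ncard : ℝ) ≤ ({p | p ∈ VV Γ k ∧ p.1 ∈ Set.Ioi (0 : ℝ)}.ncard : ℝ) +
      ({p | p ∈ VV (Γ.image rx) k ∧ p.1 ∈ Set.Ioi (0 : ℝ)}.ncard : ℝ) + 1 := by
    have : (VV Γ k).ncard ≤ {p | p ∈ VV Γ k ∧ p.1 ∈ Set.Ioi (0 : ℝ)}.ncard +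
      {p | p ∈ VV (Γ.image rx) k ∧ p.1 ∈ Set.Ioi (0 : ℝ)}.ncard + 1 := by omega
    exact_mod_cast this
  linarith

end Pool.Agent.R295.LatLev
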