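import Pool.Agent.R295.LatLev.Box

/-!
# Levels of arrangements of lines in a lattice parallelogram
-/

set_option autoImplicit false

namespace Pool.Agent.R295.LatLev

open KLev.Levels Finset Pool.Agent.Y375.FD

/-- Every line of `Γ`, written as the pair (slope, intercept), is one of the
`(A + 1) * (B + 1)` points `v + i • u + j • w`, `0 ≤ i ≤ A`, `0 ≤ j ≤ B`. -/
def InBox (v u w : ℝ × ℝ) (A B : ℕ) (Γ : Finset (ℝ × ℝ)) : Prop :=
  ∀ l ∈ Γ, ∃ i j : ℕ, i ≤ A ∧ j ≤ B ∧ l = v + (i : ℝ) • u + (j : ℝ) • w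

/-- coordinates with respect to `v, u, w`, up to the sign `s` -/
noncomputable def co (v u w : ℝ × ℝ) (s : ℝ) (l : ℝ × ℝ) : ℝ × ℝ :=
  (s * (((l.1 - v.1) * w.2 - (l.2 - v.2) * w.1) / (u.1 * w.2 - u.2 * w.1)),
    s * ((u.1 * (l.2 - v.2) - u.2 * (l.1 - v.1)) / (u.1 * w.2 - u.2 * w.1)))

lemma co_inj {v u w : ℝ × ℝ} {s : ℝ} (hD : u.1 * w.2 - u.2 * w.1 ≠ 0) (hs : s ≠ 0) :
    Function.Injective (co v u w s) := by
  intro l m h
  unfold co at h
  rw [Prod.mk.injEq] at h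
  obtain ⟨h1, h2⟩ := h
  have h1' := mul_left_cancel₀ hs h1
  have h2' := mul_left_cancel₀ hs h2
  rw [div_left_inj' hD] at h1' h2'
  have e1 : (u.1 * w.2 - u.2 * w.1) * (l.1 - m.1) = 0 := by
    linear_combination u.1 * h1' + w.1 * h2'
  have e2 : (u.1 * w.2 - u.2 * w.1) * (l.2 - m.2) = 0 := by
    linear_combination u.2 * h1' + w.2 * h2'
  refine Prod.ext ?_ ?_
  · rcases mul_eq_zero.mp e1 with h | h
    · exact absurd h hD
    · linarith
  · rcases mul_eq_zero.mp e2 with h | h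
    · exact absurd h hD
    · linarith

lemma co_of {v u w : ℝ × ℝ} {s i j : ℝ} (hD : u.1 * w.2 - u.2 * w.1 ≠ 0) :
    co v u w s (v + i • u + j • w) = (s * i, s * j) := by
  unfold co
  simp only [Prod.fst_add, Prod.snd_add, Prod.smul_fst, Prod.smul_snd, smul_eq_mul]
  refine Prod.ext ?_ ?_
  · show s * _ = s * i
    congr 1
    rw [div_eq_iff hD]
    ring
  · show s * _ = s * j
    congr 1
    rw [div_eq_iff hD]
    ring

lemma side {Γ : Finset (ℝ × ℝ)} {k : ℕ} {v u w : ℝ × ℝ} {s : ℝ}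
    (hD : u.1 * w.2 - u.2 * w.1 ≠ 0) (hs : s * s = 1) :
    {p | p ∈ VV Γ k ∧ p.1 ∈ {x : ℝ | 0 < s * (w.1 * x + w.2)}}.ncard ≤
      (VV (Γ.image (co v u w s)) k).ncard := by
  classical
  have hs0 : s ≠ 0 := by
    rintro rfl
    norm_num at hs
  have h0 : {p | p ∈ VV (Γ.image (co v u w s)) k ∧ p.1 ∈ (Set.univ : Set ℝ)} =
      VV (Γ.image (co v u w s)) k := by
    ext p
    constructor
    · intro h; exact h.1
    · intro h; exact ⟨h, Set.mem_univ _⟩
  rw [← h0]
  have hW0 : ∀ x ∈ {x : ℝ | 0 < s * (w.1 * x + w.2)}, w.1 * x + w.2 ≠ 0 := by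
    intro x hx h
    have hx' : 0 < s * (w.1 * x + w.2) := hx
    rw [h, mul_zero] at hx'
    exact lt_irrefl _ hx'
  refine VV_map (c := co v u w s) (W := fun x => s * (w.1 * x + w.2))
    (E := fun x => s * (w.1 * x + w.2) / (u.1 * w.2 - u.2 * w.1))
    (f := fun p => ((u.1 * p.1 + u.2) / (w.1 * p.1 + w.2),
      (p.2 - (v.1 * p.1 + v.2)) / (s * (w.1 * p.1 + w.2)))) (co_inj hD hs0)
    (fun x hx => hx) ?_ ?_ ?_ (fun _ _ => Set.mem_univ _) ?_
  · intro x hx
    exact div_ne_zero (ne_of_gt hx) hD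
  · intro p hp l _
    have hW := hW0 _ hp
    obtain ⟨x, y⟩ := p
    obtain ⟨a, b⟩ := l
    obtain ⟨u1, u2⟩ := u
    obtain ⟨w1, w2⟩ := w
    obtain ⟨v1, v2⟩ := v
    simp only [height, co] at hW hD ⊢
    set D := u1 * w2 - u2 * w1 with hDd
    set W := w1 * x + w2 with hWd
    have e1 : s * (((a - v1) * w2 - (b - v2) * w1) / D) * ((u1 * x + u2) / W) +
        s * ((u1 * (b - v2) - u2 * (a - v1)) / D) =
        s * (((((a - v1) * w2 - (b - v2) * w1) * (u1 * x + u2) +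
          (u1 * (b - v2) - u2 * (a - v1)) * W) / D) / W) := by
      field_simp
    have e2 : ((a - v1) * w2 - (b - v2) * w1) * (u1 * x + u2) +
          (u1 * (b - v2) - u2 * (a - v1)) * W = D * ((a - v1) * x + (b - v2)) := by
      rw [hDd, hWd]; ring
    rw [e1, e2, mul_div_cancel_left₀ _ hD]
    have e3 : ∀ t : ℝ, t / (s * W) = s * (t / W) := by
      intro t
      rw [div_eq_iff (mul_ne_zero hs0 hW)]
      have : s * (t / W) * (s * W) = (s * s) * (t / W * W) := by ring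
      rw [this, hs, one_mul, div_mul_cancel₀ _ hW]
    rw [e3, e3, ← mul_sub, ← sub_div]
    congr 2
    ring
  · intro p hp i _ j _ hi hj
    obtain ⟨x, y⟩ := p
    obtain ⟨a, b⟩ := i
    obtain ⟨a', b'⟩ := j
    obtain ⟨u1, u2⟩ := u
    obtain ⟨w1, w2⟩ := w
    obtain ⟨v1, v2⟩ := v
    simp only [height, co] at hi hj hD ⊢
    have e1 : b' - b = - x * (a' - a) := by linarith
    have e2 : b' = b - x * (a' - a) := by linarith
    rw [e2]
    field_simp
    ring
  · intro p q hp hq h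
    have hWp := hW0 _ hp
    have hWq := hW0 _ hq
    simp only at h
    rw [div_eq_div_iff hWp hWq] at h
    have e1 : (u.1 * w.2 - u.2 * w.1) * (p.1 - q.1) = 0 := by linear_combination h
    rcases mul_eq_zero.mp e1 with h | h
    · exact absurd h hD
    · linarith

/-- **The lattice parallelogram.** -/
theorem lattice {Γ : Finset (ℝ × ℝ)} {k : ℕ} {v u w : ℝ × ℝ} {A B : ℕ}
    (hD : u.1 * w.2 - u.2 * w.1 ≠ 0) (hA : 1 ≤ A) (hB : 1 ≤ B) (hΓ : InBox v u w A B Γ)
    {R : ℝ} (hR : 0 < R) (hR3 : R ^ 3 = (A : ℝ) * B * (LM Γ k : ℝ) ^ 2) :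
    ((VV Γ k).ncard : ℝ) ≤ 16 * R + 3 := by
  classical
  have b1 : Box 0 0 A B (Γ.image (co v u w 1)) := by
    intro l hl
    rw [Finset.mem_image] at hl
    obtain ⟨m, hm, rfl⟩ := hl
    obtain ⟨i, j, hi, hj, rfl⟩ := hΓ m hm
    rw [co_of hD]
    exact ⟨i, j, by simp, by simp, by omega, by omega, by omega, by omega⟩
  have b2 : Box (-A) (-B) A B (Γ.image (co v u w (-1))) := by
    intro l hl
    rw [Finset.mem_image] at hl
    obtain ⟨m, hm, rfl⟩ := hl
    obtain ⟨i, j, hi, hj, rfl⟩ := hΓ m hm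
    rw [co_of hD]
    exact ⟨-i, -j, by simp, by simp, by omega, by omega, by omega, by omega⟩
  have h1 := intBox (k := k) hA hB b1 hR (by rw [LM_image (co_inj hD one_ne_zero), hR3])
  have h2 := intBox (k := k) hA hB b2 hR
    (by rw [LM_image (co_inj hD (neg_ne_zero.mpr one_ne_zero)), hR3])
  have s1 := side (Γ := Γ) (k := k) (v := v) (s := 1) hD (by norm_num)
  have s2 := side (Γ := Γ) (k := k) (v := v) (s := -1) hD (by norm_num)
  have hsub : ({x : ℝ | w.1 * x + w.2 = 0}).Subsingleton := by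
    intro x hx y hy
    have hx' : w.1 * x + w.2 = 0 := hx
    have hy' : w.1 * y + w.2 = 0 := hy
    by_cases hw : w.1 = 0
    · exfalso
      rw [hw] at hx'
      have : w.2 = 0 := by linarith
      apply hD
      rw [hw, this]
      ring
    · have : w.1 * (x - y) = 0 := by linarith
      rcases mul_eq_zero.mp this with h | h
      · exact absurd h hw
      · linarith
  have s3 := VV_one (Γ := Γ) (k := k) hsub
  have h4 := VV_split (Γ := Γ) (k := k) (S := Set.univ)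
    (T := {x : ℝ | 0 < 1 * (w.1 * x + w.2)})
    (R := {x : ℝ | 0 < -1 * (w.1 * x + w.2)} ∪ {x : ℝ | w.1 * x + w.2 = 0}) (fun x _ => by
      rcases lt_trichotomy (w.1 * x + w.2) 0 with h5 | h5 | h5
      · refine Or.inr (Or.inl ?_)
        show 0 < -1 * (w.1 * x + w.2)
        linarith
      · exact Or.inr (Or.inr h5)
      · refine Or.inl ?_
        show 0 < 1 * (w.1 * x + w.2)
        linarith)
  have h5 := VV_split (Γ := Γ) (k := k)
    (S := {x : ℝ | 0 < -1 * (w.1 * x + w.2)} ∪ {x : ℝ | w.1 * x + w.2 = 0})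
    (T := {x : ℝ | 0 < -1 * (w.1 * x + w.2)}) (R := {x : ℝ | w.1 * x + w.2 = 0}) (subset_refl _)
  have h7 : {p | p ∈ VV Γ k ∧ p.1 ∈ (Set.univ : Set ℝ)} = VV Γ k := by
    ext p
    constructor
    · intro h; exact h.1
    · intro h; exact ⟨h, Set.mem_univ _⟩
  rw [h7] at h4
  have h8 : (VV Γ k).ncard ≤ (VV (Γ.image (co v u w 1)) k).ncard +
      (VV (Γ.image (co v u w (-1))) k).ncard + 1 := by omega
  have h9 : ((VV Γ k).ncard : ℝ) ≤ ((VV (Γ.image (co v u w 1)) k).ncard : ℝ) +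
      ((VV (Γ.image (co v u w (-1))) k).ncard : ℝ) + 1 := by exact_mod_cast h8
  linarith

end Pool.Agent.R295.LatLev
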