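import Pool.Agent.R295.LatLev.Box

/-!
# Levels and the sumset `Γ + Γ - Γ` of the set of pairs (slope, intercept)
-/

set_option autoImplicit false

namespace Pool.Agent.R295.LatLev

open KLev.Levels Finset Pool.Agent.Y375.FD

open scoped Pointwise

/-- the cell of `a` at the scale `Λ / 2 ^ i` -/
noncomputable def ce (θ Λ : ℝ) (i : ℕ) (a : ℝ) : ℤ := ⌊(a - θ) * 2 ^ i / Λ⌋

/-- `θ` is generic for `Γ` -/
def Gen (θ Λ : ℝ) (Γ : Finset (ℝ × ℝ)) : Prop :=
  ∀ l ∈ Γ, ∀ i : ℕ, ∀ z : ℤ, (l.1 - θ) * 2 ^ i / Λ ≠ z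

lemma exists_gen (Γ : Finset (ℝ × ℝ)) {Λ u v : ℝ} (hΛ : 0 < Λ) (huv : u < v) :
    ∃ θ, Gen θ Λ Γ ∧ u < θ ∧ θ < v := by
  classical
  set S : Set ℝ := ⋃ l ∈ Γ, ⋃ i : ℕ, ⋃ z : ℤ, {l.1 - z * Λ / 2 ^ i} with hS
  have hc : S.Countable := by
    apply Set.Countable.biUnion (Finset.countable_toSet Γ)
    intro l _
    apply Set.countable_iUnion
    intro i
    apply Set.countable_iUnion
    intro z
    exact Set.countable_singleton _
  obtain ⟨θ, h1, h2⟩ := (hc.dense_compl ℝ).exists_between huv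
  refine ⟨θ, ?_, h2.1, h2.2⟩
  intro l hl i z h
  apply h1
  rw [hS, Set.mem_iUnion₂]
  refine ⟨l, hl, Set.mem_iUnion.mpr ⟨i, Set.mem_iUnion.mpr ⟨z, ?_⟩⟩⟩
  rw [Set.mem_singleton_iff, ← h]
  field_simp
  ring

/-- the occupied cells -/
noncomputable def occ (θ Λ : ℝ) (i : ℕ) (Γ : Finset (ℝ × ℝ)) : Finset ℤ :=
  Γ.image (fun l => ce θ Λ i l.1)

lemma floor_half (y : ℝ) : ⌊2 * y⌋ / 2 = ⌊y⌋ := by
  symm
  rw [Int.floor_eq_iff]
  have h1 := Int.floor_le (2 * y)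
  have h2 := Int.lt_floor_add_one (2 * y)
  set c := ⌊2 * y⌋
  have h3 : 2 * (c / 2) ≤ c := by omega
  have h4 : c ≤ 2 * (c / 2) + 1 := by omega
  have h3' : (2 : ℝ) * ((c / 2 : ℤ) : ℝ) ≤ c := by exact_mod_cast h3
  have h4' : (c : ℝ) ≤ 2 * ((c / 2 : ℤ) : ℝ) + 1 := by exact_mod_cast h4
  constructor <;> linarith

lemma occ_succ {θ Λ : ℝ} (i : ℕ) (Γ : Finset (ℝ × ℝ)) :
    (occ θ Λ (i + 1) Γ).card ≤ 2 * (occ θ Λ i Γ).card := by
  classical
  apply Finset.card_le_mul_card_image_of_maps_to (f := fun c : ℤ => c / 2)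
  · intro c hc
    unfold occ at hc ⊢
    rw [Finset.mem_image] at hc ⊢
    obtain ⟨l, hl, rfl⟩ := hc
    refine ⟨l, hl, ?_⟩
    unfold ce
    rw [← floor_half]
    congr 2
    ring
  · intro b _
    have : (Finset.filter (fun c : ℤ => c / 2 = b) (occ θ Λ (i + 1) Γ)) ⊆ {2 * b, 2 * b + 1} := by
      intro c hc
      rw [Finset.mem_filter] at hc
      rw [Finset.mem_insert, Finset.mem_singleton]
      omega
    exact (Finset.card_le_card this).trans Finset.card_le_two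

/-- vertices whose slopes lie in different cells -/
lemma farCell {Γ : Finset (ℝ × ℝ)} {k : ℕ} {θ Λ : ℝ} (hΛ : 0 < Λ) (hg : Gen θ Λ Γ) (i : ℕ) :
    {p | ∃ l m, V Γ k p l m ∧ ce θ Λ i l.1 ≠ ce θ Λ i m.1}.ncard ≤
      (occ θ Λ i Γ).card * LM Γ k := by
  classical
  have h2 : (0 : ℝ) < 2 ^ i := by positivity
  set τ : ℤ → ℝ := fun c => θ + ((c : ℝ) + 1) * Λ / 2 ^ i with hτd
  have hτc : ∀ c, (τ c - θ) * 2 ^ i / Λ = ((c + 1 : ℤ) : ℝ) := by
    intro c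
    simp only [hτd]
    push_cast
    field_simp
    ring
  have hτ : ∀ c, ∀ j ∈ Γ, j.1 ≠ τ c := by
    intro c j hj h
    apply hg j hj i (c + 1)
    rw [h]
    exact hτc c
  have mono : ∀ a b : ℝ, (a - θ) * 2 ^ i / Λ < (b - θ) * 2 ^ i / Λ → a < b := by
    intro a b h
    rw [div_lt_div_iff_of_pos_right hΛ] at h
    have := lt_of_mul_lt_mul_right h h2.le
    linarith
  have mono' : ∀ a b : ℝ, a ≤ b → (a - θ) * 2 ^ i / Λ ≤ (b - θ) * 2 ^ i / Λ := by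
    intro a b h
    apply div_le_div_of_nonneg_right _ hΛ.le
    apply mul_le_mul_of_nonneg_right _ h2.le
    linarith
  have hsub : {p | ∃ l m, V Γ k p l m ∧ ce θ Λ i l.1 ≠ ce θ Λ i m.1} ⊆
      ⋃ c ∈ occ θ Λ i Γ, VT Γ k (τ c) := by
    have aux : ∀ l ∈ Γ, ∀ m ∈ Γ, l.1 ≤ m.1 → ce θ Λ i l.1 ≠ ce θ Λ i m.1 →
        ∃ c ∈ occ θ Λ i Γ, l.1 < τ c ∧ τ c < m.1 := by
      intro l hl m hm hlm hne
      have hle : ce θ Λ i l.1 ≤ ce θ Λ i m.1 := Int.floor_le_floor (mono' _ _ hlm)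
      have hlt : ce θ Λ i l.1 < ce θ Λ i m.1 := lt_of_le_of_ne hle hne
      refine ⟨ce θ Λ i l.1, Finset.mem_image_of_mem _ hl, ?_, ?_⟩
      · apply mono
        rw [hτc]
        push_cast
        exact Int.lt_floor_add_one _
      · apply mono
        rw [hτc]
        have e1 : ((ce θ Λ i l.1 + 1 : ℤ) : ℝ) ≤ ((ce θ Λ i m.1 : ℤ) : ℝ) :=
          Int.cast_le.mpr hlt
        have e2 : ((ce θ Λ i m.1 : ℤ) : ℝ) ≤ (m.1 - θ) * 2 ^ i / Λ := Int.floor_le _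
        exact lt_of_le_of_ne (e1.trans e2) (fun h => hg m hm i _ h.symm)
    rintro p ⟨l, m, h, hlm⟩
    rw [Set.mem_iUnion₂]
    rcases le_total l.1 m.1 with h1 | h1
    · obtain ⟨c, hc, h3⟩ := aux l h.1 m h.2.1 h1 hlm
      exact ⟨c, hc, l, m, h, Or.inr h3⟩
    · obtain ⟨c, hc, h3⟩ := aux m h.2.1 l h.1 h1 (Ne.symm hlm)
      exact ⟨c, hc, l, m, h, Or.inl h3⟩
  have hfin : (⋃ c ∈ occ θ Λ i Γ, VT Γ k (τ c)).Finite := by
    apply Set.Finite.biUnion (Finset.finite_toSet _)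
    intro c _
    exact (VT_card (hτ c)).1
  calc _ ≤ (⋃ c ∈ occ θ Λ i Γ, VT Γ k (τ c)).ncard := Set.ncard_le_ncard hsub hfin
    _ ≤ ∑ c ∈ occ θ Λ i Γ, (VT Γ k (τ c)).ncard := Finset.set_ncard_biUnion_le _ _
    _ ≤ ∑ c ∈ occ θ Λ i Γ, LM Γ k := Finset.sum_le_sum (fun c _ => VT_le (hτ c))
    _ = (occ θ Λ i Γ).card * LM Γ k := by simp

/-- the differences of pairs in one cell -/
noncomputable def nd (θ Λ : ℝ) (i : ℕ) (Γ : Finset (ℝ × ℝ)) : Finset (ℝ × ℝ) :=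
  ((Γ ×ˢ Γ).filter (fun z => ce θ Λ i z.1.1 = ce θ Λ i z.2.1)).image (fun z => z.1 - z.2)

lemma nearCell {Γ : Finset (ℝ × ℝ)} {k : ℕ} {θ Λ : ℝ} (i : ℕ) :
    {p | ∃ l m, V Γ k p l m ∧ ce θ Λ i l.1 = ce θ Λ i m.1}.ncard ≤ (nd θ Λ i Γ).card := by
  classical
  refine le_trans ?_ (Finset.card_image_le (s := nd θ Λ i Γ) (f := fun d : ℝ × ℝ => -d.2 / d.1))
  have := Set.ncard_le_ncard_of_injOn (s := {p : ℝ × ℝ | ∃ l m, V Γ k p l m ∧
    ce θ Λ i l.1 = ce θ Λ i m.1}) (t := (((nd θ Λ i Γ).image (fun d : ℝ × ℝ => -d.2 / d.1) :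
      Finset ℝ) : Set ℝ)) (fun p => p.1) ?_ ?_ (Finset.finite_toSet _)
  · rwa [Set.ncard_coe_finset] at this
  · rintro p ⟨l, m, h, hlm⟩
    obtain ⟨hl, hm, hne, hlp, hmp, -, -⟩ := h
    have hs := slope_ne hne hlp hmp
    show p.1 ∈ (((nd θ Λ i Γ).image (fun d : ℝ × ℝ => -d.2 / d.1) : Finset ℝ) : Set ℝ)
    rw [Finset.mem_coe, Finset.mem_image]
    refine ⟨l - m, ?_, ?_⟩
    · unfold nd
      rw [Finset.mem_image]
      exact ⟨(l, m), Finset.mem_filter.mpr ⟨Finset.mem_product.mpr ⟨hl, hm⟩, hlm⟩, rfl⟩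
    · unfold height at hlp hmp
      rw [Prod.fst_sub, Prod.snd_sub, div_eq_iff (sub_ne_zero.mpr hs)]
      linarith
  · rintro p ⟨l, m, h, -⟩ q ⟨l', m', h', -⟩ he
    exact V_inj h h' he

/-- packing -/
lemma packing {Γ : Finset (ℝ × ℝ)} {θ Λ : ℝ} (i : ℕ) :
    (nd θ Λ i Γ).card * (occ θ Λ i Γ).card ≤ 3 * (Γ + Γ - Γ).card := by
  classical
  have hex : ∀ c : ℤ, ∃ l : ℝ × ℝ, c ∈ occ θ Λ i Γ → l ∈ Γ ∧ ce θ Λ i l.1 = c := by
    intro c
    by_cases hc : c ∈ occ θ Λ i Γ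
    · have hc' := hc
      unfold occ at hc'
      rw [Finset.mem_image] at hc'
      obtain ⟨l, hl, h⟩ := hc'
      exact ⟨l, fun _ => ⟨hl, h⟩⟩
    · exact ⟨0, fun h => absurd h hc⟩
  choose r hr using hex
  rw [← Finset.card_product]
  apply Finset.card_le_mul_card_image_of_maps_to (f := fun z : (ℝ × ℝ) × ℤ => z.1 + r z.2)
  · rintro ⟨d, c⟩ hz
    rw [Finset.mem_product] at hz
    obtain ⟨hd, hc⟩ := hz
    unfold nd at hd
    rw [Finset.mem_image] at hd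
    obtain ⟨⟨l, m⟩, hlm, rfl⟩ := hd
    rw [Finset.mem_filter, Finset.mem_product] at hlm
    show l - m + r c ∈ Γ + Γ - Γ
    have : l - m + r c = l + r c - m := by abel
    rw [this]
    exact Finset.sub_mem_sub (Finset.add_mem_add hlm.1.1 (hr c hc).1) hlm.1.2
  · intro g _
    set e : ℤ := ⌊(g.1 - θ) * 2 ^ i / Λ⌋ with he
    have h3 : ({e - 1, e, e + 1} : Finset ℤ).card ≤ 3 := Finset.card_le_three
    refine le_trans ?_ h3
    apply Finset.card_le_card_of_injOn (fun z => z.2)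
    · rintro ⟨d, c⟩ hz
      rw [Finset.mem_coe, Finset.mem_filter, Finset.mem_product] at hz
      obtain ⟨⟨hd, hc⟩, hg⟩ := hz
      unfold nd at hd
      rw [Finset.mem_image] at hd
      obtain ⟨⟨l, m⟩, hlm, rfl⟩ := hd
      rw [Finset.mem_filter, Finset.mem_product] at hlm
      have h4 : ce θ Λ i l.1 = ce θ Λ i m.1 := hlm.2
      have h5 : ce θ Λ i (r c).1 = c := (hr c hc).2
      have h6 : g = l - m + r c := hg.symm
      have h7 : (g.1 - θ) * 2 ^ i / Λ = (l.1 - θ) * 2 ^ i / Λ - (m.1 - θ) * 2 ^ i / Λ +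
          ((r c).1 - θ) * 2 ^ i / Λ := by
        rw [h6]
        simp only [Prod.fst_add, Prod.fst_sub]
        ring
      have l1 := Int.floor_le ((l.1 - θ) * 2 ^ i / Λ)
      have l2 := Int.lt_floor_add_one ((l.1 - θ) * 2 ^ i / Λ)
      have m1 := Int.floor_le ((m.1 - θ) * 2 ^ i / Λ)
      have m2 := Int.lt_floor_add_one ((m.1 - θ) * 2 ^ i / Λ)
      have r1 := Int.floor_le (((r c).1 - θ) * 2 ^ i / Λ)
      have r2 := Int.lt_floor_add_one (((r c).1 - θ) * 2 ^ i / Λ)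
      unfold ce at h4 h5
      rw [h4] at l1 l2
      rw [h5] at r1 r2
      have g1 := Int.floor_le ((g.1 - θ) * 2 ^ i / Λ)
      have g2 := Int.lt_floor_add_one ((g.1 - θ) * 2 ^ i / Λ)
      rw [← he] at g1 g2
      have u1 : (e : ℝ) < c + 2 := by linarith
      have u2 : (c : ℝ) < e + 2 := by linarith
      have u1' : e < c + 2 := by exact_mod_cast u1
      have u2' : c < e + 2 := by exact_mod_cast u2
      show c ∈ (({e - 1, e, e + 1} : Finset ℤ) : Set ℤ)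
      rw [Finset.mem_coe, Finset.mem_insert, Finset.mem_insert, Finset.mem_singleton]
      omega
    · rintro ⟨d, c⟩ hz ⟨d', c'⟩ hz' h
      rw [Finset.mem_coe, Finset.mem_filter] at hz hz'
      have h1 : c = c' := h
      subst h1
      have h2 : d + r c = g := hz.2
      have h3 : d' + r c = g := hz'.2
      have h4 : d = d' := add_right_cancel (h2.trans h3.symm)
      rw [h4]

/-- at a small scale the cells separate the slopes -/
lemma separated (Γ : Finset (ℝ × ℝ)) (θ : ℝ) {Λ : ℝ} (hΛ : 0 < Λ) :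
    ∃ i : ℕ, ∀ l ∈ Γ, ∀ m ∈ Γ, l.1 ≠ m.1 → ce θ Λ i l.1 ≠ ce θ Λ i m.1 := by
  have h : ∀ᶠ i : ℕ in Filter.atTop, ∀ l ∈ Γ, ∀ m ∈ Γ, l.1 ≠ m.1 →
      ce θ Λ i l.1 ≠ ce θ Λ i m.1 := by
    rw [Filter.eventually_all_finset]
    intro l _
    rw [Filter.eventually_all_finset]
    intro m _
    by_cases hlm : l.1 = m.1
    · exact Filter.Eventually.of_forall (fun _ h => absurd hlm h)
    have ht : Filter.Tendsto (fun i : ℕ => (2 : ℝ) ^ i) Filter.atTop Filter.atTop :=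
      tendsto_pow_atTop_atTop_of_one_lt (by norm_num)
    filter_upwards [ht.eventually_ge_atTop (Λ / |l.1 - m.1|)] with i hi _ he
    have hpos : 0 < |l.1 - m.1| := abs_pos.mpr (sub_ne_zero.mpr hlm)
    rw [div_le_iff₀ hpos] at hi
    unfold ce at he
    have l1 := Int.floor_le ((l.1 - θ) * 2 ^ i / Λ)
    have l2 := Int.lt_floor_add_one ((l.1 - θ) * 2 ^ i / Λ)
    have m1 := Int.floor_le ((m.1 - θ) * 2 ^ i / Λ)
    have m2 := Int.lt_floor_add_one ((m.1 - θ) * 2 ^ i / Λ)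
    rw [he] at l1 l2
    have h1 : |(l.1 - θ) * 2 ^ i / Λ - (m.1 - θ) * 2 ^ i / Λ| < 1 := by
      rw [abs_lt]; constructor <;> linarith
    have h2 : (l.1 - θ) * 2 ^ i / Λ - (m.1 - θ) * 2 ^ i / Λ = (l.1 - m.1) * 2 ^ i / Λ := by ring
    rw [h2, abs_div, abs_mul, abs_of_pos hΛ, abs_of_pos (show (0 : ℝ) < 2 ^ i by positivity),
      div_lt_one hΛ] at h1
    linarith
  exact h.exists

lemma split_cell {Γ : Finset (ℝ × ℝ)} {k : ℕ} {θ Λ : ℝ} (hΛ : 0 < Λ) (hg : Gen θ Λ Γ) (i : ℕ) :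
    (VV Γ k).ncard ≤ (occ θ Λ i Γ).card * LM Γ k +
      {p | ∃ l m, V Γ k p l m ∧ ce θ Λ i l.1 = ce θ Λ i m.1}.ncard := by
  classical
  have hsub : VV Γ k ⊆ {p | ∃ l m, V Γ k p l m ∧ ce θ Λ i l.1 ≠ ce θ Λ i m.1} ∪
      {p | ∃ l m, V Γ k p l m ∧ ce θ Λ i l.1 = ce θ Λ i m.1} := by
    rintro p ⟨l, m, h⟩
    by_cases h1 : ce θ Λ i l.1 = ce θ Λ i m.1
    · exact Or.inr ⟨l, m, h, h1⟩
    · exact Or.inl ⟨l, m, h, h1⟩
  have hfin : ({p | ∃ l m, V Γ k p l m ∧ ce θ Λ i l.1 ≠ ce θ Λ i m.1} ∪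
      {p | ∃ l m, V Γ k p l m ∧ ce θ Λ i l.1 = ce θ Λ i m.1}).Finite := by
    apply (VV_fin Γ k).subset
    rintro p (⟨l, m, h, -⟩ | ⟨l, m, h, -⟩)
    · exact ⟨l, m, h⟩
    · exact ⟨l, m, h⟩
  refine (Set.ncard_le_ncard hsub hfin).trans ((Set.ncard_union_le _ _).trans ?_)
  exact Nat.add_le_add_right (farCell hΛ hg i) _

lemma num_aux {r M Q N v t t' d : ℝ} (hr0 : 0 < r) (hM0 : 0 < M) (hrM : r * M = Q)
    (hNr : N / r = Q) (h4 : v ≤ t * M + d) (h5 : d * t ≤ 3 * N) (hj : r < t) (h1 : t' ≤ r)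
    (h2 : t ≤ 2 * t') : v ≤ 5 * Q := by
  have ht0 : 0 < t := lt_trans hr0 hj
  have hN0 : 0 < N := by
    have : N = Q * r := by rw [← hNr]; field_simp
    rw [this, ← hrM]
    positivity
  have h6 : d ≤ 3 * Q := by
    have h7 : d ≤ 3 * N / t := by rw [le_div_iff₀ ht0]; exact h5
    have h8 : 3 * N / t ≤ 3 * N / r := div_le_div_of_nonneg_left (by positivity) hr0 hj.le
    have h9 : 3 * N / r = 3 * Q := by rw [mul_div_assoc, hNr]
    linarith
  have h7 : t * M ≤ 2 * r * M := mul_le_mul_of_nonneg_right (by linarith) hM0.le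
  have h8 : 2 * r * M = 2 * Q := by rw [mul_assoc, hrM]
  linarith

/-- **The sumset bound.** -/
theorem sumset (Γ : Finset (ℝ × ℝ)) (k : ℕ) :
    ((VV Γ k).ncard : ℝ) ≤ 5 * Real.sqrt (((Γ + Γ - Γ).card : ℝ) * (LM Γ k : ℝ)) := by
  classical
  rcases Γ.eq_empty_or_nonempty with rfl | hne
  · have : VV (∅ : Finset (ℝ × ℝ)) k = ∅ := by
      ext p
      simp only [Set.mem_empty_iff_false, iff_false]
      rintro ⟨l, m, h⟩
      exact absurd h.1 (Finset.notMem_empty _)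
    rw [this, Set.ncard_empty, Nat.cast_zero]
    positivity
  -- the range of the slopes
  obtain ⟨l0, hl0, hmin⟩ := Γ.exists_min_image (fun l => l.1) hne
  obtain ⟨l1, hl1, hmax⟩ := Γ.exists_max_image (fun l => l.1) hne
  have h01 : l0.1 ≤ l1.1 := hmin l1 hl1
  set Λ : ℝ := l1.1 - l0.1 + 1 with hΛd
  have hΛ : 0 < Λ := by linarith
  obtain ⟨θ, hg, hθ1, hθ2⟩ := exists_gen Γ hΛ (show l0.1 - 1 < l0.1 by linarith)
  set M : ℝ := (LM Γ k : ℝ) with hM
  set N : ℝ := ((Γ + Γ - Γ).card : ℝ) with hN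
  have hM1 : (1 : ℝ) ≤ M := Nat.one_le_cast.mpr (LM_pos Γ k)
  have hMn : M ≤ N := by
    have h1 : LM Γ k ≤ Γ.card := by
      have := hne.card_pos
      unfold LM
      omega
    have h2 : Γ.card ≤ (Γ + Γ - Γ).card := by
      apply Finset.card_le_card
      intro l hl
      have : l = l + l - l := by abel
      rw [this]
      exact Finset.sub_mem_sub (Finset.add_mem_add hl hl) hl
    exact Nat.cast_le.mpr (h1.trans h2)
  set Q : ℝ := Real.sqrt (N * M) with hQd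
  have hQ2 : Q ^ 2 = N * M := Real.sq_sqrt (by positivity)
  have hM0 : 0 < M := by linarith
  have hN0 : 0 < N := by linarith
  have hQ0 : 0 < Q := Real.sqrt_pos.mpr (by positivity)
  set r : ℝ := Q / M with hr
  have hrM : r * M = Q := by rw [hr]; field_simp
  have hr0 : 0 < r := by positivity
  have hQM : M ≤ Q := by
    apply Real.le_sqrt_of_sq_le
    nlinarith
  have hr1 : 1 ≤ r := by rw [hr, le_div_iff₀ hM0]; linarith
  have hNr : N / r = Q := by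
    rw [hr]
    field_simp
    linarith
  by_cases hcase : ∃ j, r < ((occ θ Λ j Γ).card : ℝ)
  · have hj := Nat.find_spec hcase
    have hjmin := fun i => Nat.find_min (m := i) hcase
    obtain ⟨j, hjd⟩ : ∃ j, j = Nat.find hcase := ⟨_, rfl⟩
    rw [← hjd] at hj hjmin
    rcases j with _ | j
    · -- only one cell at the coarsest scale
      exfalso
      have h1 : occ θ Λ 0 Γ ⊆ {0} := by
        intro c hc
        unfold occ at hc
        rw [Finset.mem_image] at hc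
        obtain ⟨l, hl, rfl⟩ := hc
        rw [Finset.mem_singleton]
        unfold ce
        rw [Int.floor_eq_iff]
        have h2 : l0.1 ≤ l.1 := hmin l hl
        have h3 : l.1 ≤ l1.1 := hmax l hl
        constructor
        · push_cast
          apply div_nonneg _ hΛ.le
          rw [pow_zero, mul_one]
          linarith
        · push_cast
          rw [pow_zero, mul_one, zero_add, div_lt_one hΛ]
          linarith
      have h2 := Finset.card_le_card h1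
      rw [Finset.card_singleton] at h2
      have h3 : ((occ θ Λ 0 Γ).card : ℝ) ≤ 1 := Nat.cast_le_one.mpr h2
      linarith
    · have h1 : ((occ θ Λ j Γ).card : ℝ) ≤ r := not_lt.mp (hjmin j (Nat.lt_succ_self j))
      have h2 : ((occ θ Λ (j + 1) Γ).card : ℝ) ≤ 2 * ((occ θ Λ j Γ).card : ℝ) := by
        have := Nat.cast_le (α := ℝ).mpr (occ_succ (θ := θ) (Λ := Λ) j Γ)
        rwa [Nat.cast_mul, Nat.cast_ofNat] at this
      have h3 : (VV Γ k).ncard ≤ (occ θ Λ (j + 1) Γ).card * LM Γ k + (nd θ Λ (j + 1) Γ).card :=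
        (split_cell hΛ hg (j + 1)).trans (Nat.add_le_add_left (nearCell (j + 1)) _)
      have h4 : ((VV Γ k).ncard : ℝ) ≤ ((occ θ Λ (j + 1) Γ).card : ℝ) * M +
          ((nd θ Λ (j + 1) Γ).card : ℝ) := by
        have := Nat.cast_le (α := ℝ).mpr h3
        rwa [Nat.cast_add, Nat.cast_mul] at this
      have h5 : ((nd θ Λ (j + 1) Γ).card : ℝ) * ((occ θ Λ (j + 1) Γ).card : ℝ) ≤ 3 * N := by
        have := Nat.cast_le (α := ℝ).mpr (packing (Γ := Γ) (θ := θ) (Λ := Λ) (j + 1))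
        rwa [Nat.cast_mul, Nat.cast_mul, Nat.cast_ofNat] at this
      exact num_aux hr0 hM0 hrM hNr h4 h5 hj h1 h2
  · push Not at hcase
    obtain ⟨i, hi⟩ := separated Γ θ hΛ
    have h1 : {p | ∃ l m, V Γ k p l m ∧ ce θ Λ i l.1 = ce θ Λ i m.1} = ∅ := by
      ext p
      simp only [Set.mem_empty_iff_false, iff_false]
      rintro ⟨l, m, h, he⟩
      exact hi l h.1 m h.2.1 (slope_ne h.2.2.1 h.2.2.2.1 h.2.2.2.2.1) he
    have h2 := split_cell (k := k) hΛ hg i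
    rw [h1, Set.ncard_empty, add_zero] at h2
    have h3 : ((VV Γ k).ncard : ℝ) ≤ ((occ θ Λ i Γ).card : ℝ) * M := by
      have := Nat.cast_le (α := ℝ).mpr h2
      rwa [Nat.cast_mul] at this
    have h4 : ((occ θ Λ i Γ).card : ℝ) * M ≤ r * M :=
      mul_le_mul_of_nonneg_right (hcase i) hM0.le
    linarith

end Pool.Agent.R295.LatLev
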